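import Pool.Agent.H502.PcFinal
set_option autoImplicit false

/-!
# Tree-like satisfiability of the F,G-fragment of PCTL is undecidable
-/

namespace Pool.Agent.Results.MP_1d78e3_lc.Undecidable

open Pool.Agent.H502.Pc

/-- No algorithm decides, given the Goedel number of a formula of the F,G-fragment of PCTL, whether
the formula has a tree-like model. -/
theorem result : ¬ ∃ D : ℕ → Prop, ComputablePred D ∧
    ∀ φ : Form ℕ, D φ.code ↔ HasTreeModel φ :=
  undecidable

end Pool.Agent.Results.MP_1d78e3_lc.Undecidable
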